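import Mathlib
import Pool.Agent.H151.TEmb

/-!
Every zero-dimensional t-extral compact space is metrizable; in particular the Cantor cubes of
uncountable weight are not t-extral.
-/

set_option autoImplicit false

open Set Topology unitInterval

namespace Pool.Agent.Results.MP_4f6efa_gt.TExtralMetrizable

universe u

/-- Every totally disconnected (i.e. zero-dimensional) compact Hausdorff space which is t-extral is
metrizable; in particular, for no uncountable `κ` is the Cantor cube `D ^ κ` t-extral. -/
theorem result :
    (∀ (K : Type u) [TopologicalSpace K] [CompactSpace K] [T2Space K]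
      [TotallyDisconnectedSpace K], Pool.Agent.H151.TExtral K →
        TopologicalSpace.MetrizableSpace K) ∧
    ∀ (κ : Type u) [Uncountable κ], ¬ Pool.Agent.H151.TExtral (κ → Bool) := by
  have key : ∀ (K : Type u) [TopologicalSpace K] [CompactSpace K] [T2Space K]
      [TotallyDisconnectedSpace K], Pool.Agent.H151.TExtral K → Countable C(K, Bool) := by
    intro K _ _ _ _ hK
    classical
    let e : K → (C(K, Bool) → I) := fun x g => if g x then 1 else 0
    have hc : Continuous fun b : Bool => (if b then (1 : I) else 0) :=
      continuous_of_discreteTopology
    have he : Continuous e := continuous_pi fun g => hc.comp g.continuous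
    have hinj : Function.Injective e := by
      intro x x' h
      refine Pool.Agent.H151.sep x x' fun g => ?_
      have h1 := congrFun h g
      simp only [e] at h1
      cases hx : g x <;> cases hx' : g x' <;> simp_all
    have hcl : IsClosedEmbedding e := he.isClosedEmbedding hinj
    exact Pool.Agent.H151.countable_of_temb_range e hcl.isEmbedding (hK _ e hcl)
  refine ⟨?_, ?_⟩
  · intro K _ _ _ _ hK
    exact Pool.Agent.H151.metrizable_of_countable (key K hK)
  · intro κ _ h
    exact Pool.Agent.H151.cantor_uncountable κ (key (κ → Bool) h)

end Pool.Agent.Results.MP_4f6efa_gt.TExtralMetrizable
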